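import Pool.Agent.helper71.FT.Spec
import Pool.Agent.helper4.FS.FQP

/-!
# Project FT, row LGP: the leaf condition
-/

open scoped MatrixGroups ContDiff Topology UpperHalfPlane ComplexConjugate
open UpperHalfPlane MeasureTheory Filter Set

set_option autoImplicit false

namespace Pool.Agent.FT

open Pool.Agent.RS
open Pool.Agent.MS (bq BB BA SF pf)
open Pool.Agent.EN (XG MG mkX mkM fl pr)
open Pool.Agent.FS (tp)

noncomputable section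

/-- the normal form of the point of `j` (estimates as in helper4/FS/FQP) -/
theorem LGP_pt (hG : RS.GLC_stmt) (c εc l l0 : ℝ) (hεpos : 0 < εc) (hεc : εc ≤ c) (hε1 : εc ≤ 1 / 100) (hl : 0 ≤ l) (hl0 : l ≤ l0)
    (hl1 : l0 ≤ εc / 100) (s g : SL(2, ℝ)) (F : SL(2, ℝ) → ℝ) (j : ℤ) (hj : |(j : ℝ) * εc| ≤ 3 / 10) (u : ℝ) (hu : u ∈ Icc (0 : ℝ) 1)
    (x τ o : ℝ) (hx : |x| ≤ 4 * εc) (hτ : |τ| ≤ 3 / 5) (ho : |o| ≤ l0)
    (hne : F (s * g * lM (l * u) * nM (j * εc + x) * aM τ * lM o) ≠ 0) :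
    ∃ z τ' o' : ℝ, |z - j * εc| ≤ 5 * εc ∧ |τ'| ≤ 7 / 10 ∧ |o'| ≤ c ∧ F (s * g * nM z * aM τ' * lM o') ≠ 0 := by
  have hl' : l ≤ 1 / 10000 := by linarith
  have hz1 : |(j : ℝ) * εc + x| ≤ 1 / 2 := by
    have := abs_add_le ((j : ℝ) * εc) x
    linarith
  obtain ⟨z, hz⟩ : ∃ z : ℝ, z = (j : ℝ) * εc + x := ⟨_, rfl⟩
  rw [← hz] at hz1 hne
  obtain ⟨a, ha⟩ : ∃ a : ℝ, a = l * u := ⟨_, rfl⟩
  rw [← ha] at hne
  have ha0 : 0 ≤ a := by rw [ha]; exact mul_nonneg hl hu.1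
  have hal : a ≤ l := by
    rw [ha]
    have := hu.2
    nlinarith
  have haz : |a * z| ≤ l / 2 := by
    rw [abs_mul, abs_of_nonneg ha0]
    have := abs_nonneg z
    nlinarith
  obtain ⟨haz1, haz2⟩ := abs_le.1 haz
  have hδ : 99 / 100 ≤ 1 + a * z := by linarith
  have hδ2 : 1 + a * z ≤ 101 / 100 := by linarith
  have hδ0 : 0 < 1 + a * z := by linarith
  rw [Pool.Agent.FS.FQP_pt hG (s * g) a z τ o hδ0] at hne
  refine ⟨z / (1 + a * z), -2 * Real.log (1 + a * z) + τ, Real.exp τ * (a / (1 + a * z)) + o, ?_, ?_, ?_, hne⟩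
  · have h1 : |z / (1 + a * z) - z| ≤ l := by
      have h2 : z / (1 + a * z) - z = -(z * (a * z)) / (1 + a * z) := by
        rw [eq_div_iff hδ0.ne', sub_mul, div_mul_cancel₀ _ hδ0.ne']
        ring
      rw [h2, abs_div, abs_neg, abs_mul, abs_of_pos hδ0, div_le_iff₀ hδ0]
      have h3 : |z| * |a * z| ≤ 1 / 2 * (l / 2) := mul_le_mul hz1 haz (abs_nonneg _) (by norm_num)
      nlinarith
    have h12 : z / (1 + a * z) - j * εc = (z / (1 + a * z) - z) + x := by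
      rw [hz]
      ring
    rw [h12]
    have h14 := abs_add_le (z / (1 + a * z) - z) x
    linarith
  · have h1 : |Real.log (1 + a * z)| ≤ 1 / 20 := by
      rw [abs_le]
      constructor
      · have h2 : 1 - (1 + a * z)⁻¹ ≤ Real.log (1 + a * z) := Real.one_sub_inv_le_log_of_pos hδ0
        have h3 : (1 + a * z)⁻¹ ≤ 100 / 99 := by
          rw [inv_eq_one_div, div_le_div_iff₀ hδ0 (by norm_num)]
          linarith
        linarith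
      · have h2 := Real.log_le_sub_one_of_pos hδ0
        linarith
    have h4 := abs_add_le (-2 * Real.log (1 + a * z)) τ
    have h5 : |-2 * Real.log (1 + a * z)| ≤ 1 / 10 := by
      rw [abs_mul]
      norm_num
      linarith
    linarith
  · have h1 : Real.exp τ ≤ 2 := by
      have h2 : τ ≤ 3 / 5 := (abs_le.1 hτ).2
      have h3 : Real.exp τ ≤ Real.exp (3 / 5) := Real.exp_le_exp.2 h2
      have h4 : Real.exp (3 / 5) ≤ 2 := by
        have h5 : (3 / 5 : ℝ) ≤ Real.log 2 := by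
          have := Real.log_two_gt_d9
          linarith
        calc Real.exp (3 / 5) ≤ Real.exp (Real.log 2) := Real.exp_le_exp.2 h5
          _ = 2 := Real.exp_log (by norm_num)
      linarith
    have h6 : a / (1 + a * z) ≤ l * (100 / 99) := by
      rw [div_le_iff₀ hδ0]
      nlinarith
    have h7 : 0 ≤ a / (1 + a * z) := by positivity
    have h8 : |Real.exp τ * (a / (1 + a * z))| ≤ 2 * (l * (100 / 99)) := by
      rw [abs_of_nonneg (by positivity)]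
      exact mul_le_mul h1 h6 h7 (by norm_num)
    have h9 := abs_add_le (Real.exp τ * (a / (1 + a * z))) o
    linarith

theorem LGP_cont (J : Finset ℤ) (a : ℤ → ℂ) : Continuous (tp J a) := by
  unfold tp Pool.Agent.FS.ee
  fun_prop

theorem LGP_proof (hFUQ : FUQ_stmt) (hGLC : RS.GLC_stmt) : LGP_stmt := by
  classical
  intro Γ c C3 hc hc1 hC3
  obtain ⟨e, he, hF⟩ := hFUQ c hc hc1
  refine ⟨e, he, ?_⟩
  intro κ0 Q hκ hκ1 hQ
  obtain ⟨n1, hn1⟩ := hF κ0 (Q / 4) hκ hκ1 (by positivity)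
  obtain ⟨n2, hn2⟩ := exists_nat_ge (max 100 (1 / c))
  refine ⟨max n1 n2, ?_⟩
  intro n Ψ Ψa Ψn Ψl Ψ' Ψa' Ψn' Ψl' εc hn hP hP' hε l g g' J a hl hl0 hJ
  have hexp : max 100 (1 / c) ≤ Real.exp (n : ℝ) := by
    have h1 : (n : ℝ) + 1 ≤ Real.exp (n : ℝ) := Real.add_one_le_exp _
    have h2 : (n2 : ℝ) ≤ (n : ℝ) := by exact_mod_cast (le_max_right n1 n2).trans hn
    linarith
  have hE : 0 < Real.exp (n : ℝ) := Real.exp_pos _
  have hEi : Real.exp (-(n : ℝ)) = (Real.exp n)⁻¹ := Real.exp_neg _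
  have hEp : 0 < Real.exp (-(n : ℝ)) := Real.exp_pos _
  have hεpos : 0 < εc := by rw [hε]; positivity
  have hεle : εc ≤ Real.exp (-(n : ℝ)) := by
    rw [hε]
    nlinarith
  have hE100 : Real.exp (-(n : ℝ)) ≤ 1 / 100 := by
    rw [hEi, inv_eq_one_div]
    exact one_div_le_one_div_of_le (by norm_num) ((le_max_left _ _).trans hexp)
  have hEc : Real.exp (-(n : ℝ)) ≤ c := by
    have h := (le_max_right (100 : ℝ) (1 / c)).trans hexp
    rw [hEi, inv_eq_one_div, div_le_iff₀ hE]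
    rw [div_le_iff₀ hc] at h
    linarith
  set Z : SL(2, ℝ) → Set ℝ := fun s => {z : ℝ | ∃ τ o : ℝ, |τ| ≤ 7 / 10 ∧ |o| ≤ c ∧ Ψ' (s * g * nM z * aM τ * lM o * aM (-(n : ℝ))) ≠ 0} with hZ
  have hpt : ∀ j ∈ J, (∃ z ∈ Z 1, |z - j * εc| ≤ 5 * εc) ∨ ∃ z ∈ Z (-1), |z - j * εc| ≤ 5 * εc := by
    intro j hj
    obtain ⟨hj1, u, hu, x, τ, o, s, hs, hx, hτ, ho, hne⟩ := hJ j hj
    have hne' : (fun h => Ψ' (h * aM (-(n : ℝ)))) (s * g * lM (l * u) * nM (j * εc + x) * aM τ * lM o) ≠ 0 := hne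
    obtain ⟨z, τ', o', h1, h2, h3, h4⟩ := LGP_pt hGLC c εc l (εc / 100) hεpos (hεle.trans hEc) (hεle.trans hE100) hl hl0 le_rfl s g
      (fun h => Ψ' (h * aM (-(n : ℝ)))) j hj1 u hu x τ o hx hτ ho hne'
    rcases hs with rfl | rfl
    · exact Or.inl ⟨z, ⟨τ', o', h2, h3, h4⟩, h1⟩
    · exact Or.inr ⟨z, ⟨τ', o', h2, h3, h4⟩, h1⟩
  set U : Set ℝ := {v : ℝ | Ψ (g' * lM v) ≠ 0} with hU
  set J1 : Finset ℤ := J.filter fun j => ∃ z ∈ Z 1, |z - j * εc| ≤ 5 * εc with hJ1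
  set J2 : Finset ℤ := J.filter fun j => ¬ ∃ z ∈ Z 1, |z - j * εc| ≤ 5 * εc with hJ2
  have k1 : ∫ v in U ∩ Icc 0 1, ‖tp J1 a v‖ ^ 2 ≤ Q / 4 * ∑ j ∈ J1, ‖a j‖ ^ 2 :=
    hn1 n U (Z 1) J1 a εc ((le_max_left n1 n2).trans hn) hε (hP.fw g') (hP'.bw (1 * g)) fun j hj => (Finset.mem_filter.1 hj).2
  have k2 : ∫ v in U ∩ Icc 0 1, ‖tp J2 a v‖ ^ 2 ≤ Q / 4 * ∑ j ∈ J2, ‖a j‖ ^ 2 :=
    hn1 n U (Z (-1)) J2 a εc ((le_max_left n1 n2).trans hn) hε (hP.fw g') (hP'.bw (-1 * g)) fun j hj => by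
      obtain ⟨h1, h2⟩ := Finset.mem_filter.1 hj
      exact (hpt j h1).resolve_left h2
  have hsum : ∀ f : ℤ → ℂ, ∑ j ∈ J, f j = ∑ j ∈ J1, f j + ∑ j ∈ J2, f j := fun f => (Finset.sum_filter_add_sum_filter_not J _ f).symm
  have hsumr : ∑ j ∈ J, ‖a j‖ ^ 2 = ∑ j ∈ J1, ‖a j‖ ^ 2 + ∑ j ∈ J2, ‖a j‖ ^ 2 := (Finset.sum_filter_add_sum_filter_not J _ _).symm
  have htp : ∀ v, tp J a v = tp J1 a v + tp J2 a v := fun v => hsum _
  have hint : ∀ I : Finset ℤ, IntegrableOn (fun v => ‖tp I a v‖ ^ 2) (U ∩ Icc 0 1) := fun I =>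
    (((LGP_cont I a).norm.pow 2).continuousOn.integrableOn_compact isCompact_Icc).mono_set inter_subset_right
  have k3 : ∫ v in U ∩ Icc 0 1, ‖tp J a v‖ ^ 2 ≤ ∫ v in U ∩ Icc 0 1, (2 * ‖tp J1 a v‖ ^ 2 + 2 * ‖tp J2 a v‖ ^ 2) := by
    refine setIntegral_mono (hint J) (((hint J1).const_mul 2).add ((hint J2).const_mul 2)) fun v => ?_
    show ‖tp J a v‖ ^ 2 ≤ 2 * ‖tp J1 a v‖ ^ 2 + 2 * ‖tp J2 a v‖ ^ 2
    rw [htp]
    have h1 := norm_add_le (tp J1 a v) (tp J2 a v)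
    have h2 := norm_nonneg (tp J1 a v + tp J2 a v)
    nlinarith [sq_nonneg (‖tp J1 a v‖ - ‖tp J2 a v‖)]
  have k4 : ∫ v in U ∩ Icc 0 1, (2 * ‖tp J1 a v‖ ^ 2 + 2 * ‖tp J2 a v‖ ^ 2) =
      2 * (∫ v in U ∩ Icc 0 1, ‖tp J1 a v‖ ^ 2) + 2 * ∫ v in U ∩ Icc 0 1, ‖tp J2 a v‖ ^ 2 := by
    rw [integral_add ((hint J1).const_mul 2) ((hint J2).const_mul 2), integral_const_mul, integral_const_mul]
  have hS0 : 0 ≤ ∑ j ∈ J, ‖a j‖ ^ 2 := Finset.sum_nonneg fun j _ => sq_nonneg _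
  have hfin : ∫ v in U ∩ Icc 0 1, ‖tp J a v‖ ^ 2 ≤ Q * ∑ j ∈ J, ‖a j‖ ^ 2 := by
    rw [k4] at k3
    nlinarith
  rw [inter_comm] at hfin
  exact hfin

end

end Pool.Agent.FT
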